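import Mathlib

namespace Pool.Agent.MP_025f5d_nt

/-- The Pell numbers: P 0 = 0, P 1 = 1, P (n+2) = 2 P (n+1) + P n. -/
def pell : ℕ → ℤ
  | 0 => 0
  | 1 => 1
  | (n + 2) => 2 * pell (n + 1) + pell n

/-- S_1(p) = sum over 0 ≤ k < p of P_k / (-8)^k * binom(2k,k)^2. -/
def S1 (p : ℕ) : ℚ :=
  ∑ k ∈ Finset.range p, (pell k : ℚ) / (-8) ^ k * (((2 * k).choose k : ℕ) : ℚ) ^ 2

/-- S_2(p) = sum over 0 ≤ k < p of k P_k / (-8)^k * binom(2k,k)^2. -/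
def S2 (p : ℕ) : ℚ :=
  ∑ k ∈ Finset.range p, (k : ℚ) * (pell k : ℚ) / (-8) ^ k * (((2 * k).choose k : ℕ) : ℚ) ^ 2

/-- T(p) = sum over 0 ≤ k < p of binom(p-1,k) * P_k / 8^k * binom(2k,k)^2. -/
def T (p : ℕ) : ℚ :=
  ∑ k ∈ Finset.range p,
    (((p - 1).choose k : ℕ) : ℚ) * ((pell k : ℚ) / 8 ^ k) * (((2 * k).choose k : ℕ) : ℚ) ^ 2

/-- Congruence modulo p^2 of rational numbers: the difference lies in p^2 Z_(p), that is,
p^2 divides the numerator of a - b written in lowest terms. -/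
def CongSq (p : ℕ) (a b : ℚ) : Prop := (p : ℤ) ^ 2 ∣ (a - b).num

end Pool.Agent.MP_025f5d_nt
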